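import Pool.Agent.MP_5f72fe_nt.H25.SpecD
import Pool.Agent.MP_5f72fe_nt.H11.WDIM

/-! The dimension of the space of forms of weight `d + 3/2` with exponents `1` and `4`. -/

namespace Pool.Agent.MP_5f72fe_nt.H55

open Pool.Agent.MP_5f72fe_nt.H3 Pool.Agent.MP_5f72fe_nt.H25 Pool.Agent.MP_5f72fe_nt.H11.Wdim Complex
open scoped MatrixGroups PowerSeries UpperHalfPlane

namespace Wdp

theorem sm_W (hS : RowSER) (hB : RowBASE) (hZ : RowZ) :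
    Sm (cz (W0 0)) ∧ Sm (cz (W0 1)) ∧ Sm (cz (W2 0)) ∧ Sm (cz (W2 1)) ∧ Sm (cz D2) ∧ Sm (cz E8) ∧
    ∀ τ : ℂ, 0 < τ.im → sr (W0 0) τ * sr (W2 1) τ - sr (W0 1) τ * sr (W2 0) τ =
      -12 * (sr D2 τ * sr E8 τ) := by
  have sE := (sm_all hS hB).2.2.1
  obtain ⟨R, hR, hφ⟩ := hS.ring
  have y0 := (hR _).mpr (hZ.sm 0 (by norm_num)).1
  have y1 := (hR _).mpr (hZ.sm 1 (by norm_num)).1
  have z0 := (hR _).mpr (hZ.sm 0 (by norm_num)).2
  have z1 := (hR _).mpr (hZ.sm 1 (by norm_num)).2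
  have a := (hR _).mpr hB.sm.2.1
  have k := (hR _).mpr hB.sm.2.2.1
  have w00 : W0 0 ∈ R := R.sub_mem (R.mul_mem a z0) (R.mul_mem (R.mul_mem (ofNat_mem R 3) k) y0)
  have w01 : W0 1 ∈ R := R.sub_mem (R.mul_mem a z1) (R.mul_mem (R.mul_mem (ofNat_mem R 3) k) y1)
  have c1 : Aa ^ 3 - 108 * Kk ^ 3 ∈ R :=
    R.sub_mem (R.pow_mem a 3) (R.mul_mem (ofNat_mem R 108) (R.pow_mem k 3))
  have c2 : 9 * Aa ^ 2 * Kk ∈ R := R.mul_mem (R.mul_mem (ofNat_mem R 9) (R.pow_mem a 2)) k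
  have w20 : W2 0 ∈ R := R.add_mem (R.mul_mem c1 z0) (R.mul_mem c2 y0)
  have w21 : W2 1 ∈ R := R.add_mem (R.mul_mem c1 z1) (R.mul_mem c2 y1)
  have d : D2 ∈ R := R.sub_mem (R.mul_mem y0 z1) (R.mul_mem y1 z0)
  have e : E8 ∈ R := (hR _).mpr sE
  refine ⟨(hR _).mp w00, (hR _).mp w01, (hR _).mp w20, (hR _).mp w21, (hR _).mp d, sE, ?_⟩
  intro τ hτ
  obtain ⟨φ, hφ⟩ := hφ τ hτ
  have key : (⟨W0 0, w00⟩ : R) * ⟨W2 1, w21⟩ - ⟨W0 1, w01⟩ * ⟨W2 0, w20⟩ =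
      -12 * (⟨D2, d⟩ * ⟨E8, e⟩) := by
    apply Subtype.ext
    change W0 0 * W2 1 - W0 1 * W2 0 = -12 * (D2 * E8)
    unfold W0 W2 D2 E8
    ring
  have h := congrArg φ key
  simp only [map_sub, map_mul, map_neg, map_ofNat] at h
  simp only [hφ] at h
  exact h

/-- the two quotients -/
noncomputable def FP (h : ℕ → ℂ) (τ : ℂ) : ℂ :=
  (1 * (ser 12 (par 0 h) τ * sr (W2 1) τ) + -1 * (ser 12 (par 1 h) τ * sr (W2 0) τ)) /
    (sr D2 τ * sr E8 τ)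

noncomputable def GP (h : ℕ → ℂ) (τ : ℂ) : ℂ :=
  (1 * (ser 12 (par 1 h) τ * sr (W0 0) τ) + -1 * (ser 12 (par 0 h) τ * sr (W0 1) τ)) /
    (sr D2 τ * sr E8 τ)

theorem holP (hS : RowSER) (hI : RowINT) (hB : RowBASE) (hN : RowNZ) (hZ : RowZ) {j : ℕ}
    {h : ℕ → ℂ} (hw : WP j h) : Hol1 (FP h) ∧ Hol1 (GP h) := by
  obtain ⟨s00, s01, s20, s21, sD, sE, -⟩ := sm_W hS hB hZ
  have h0 := (exC hS 4 (sm_par hw.1 0) fun n hn => by
    have h1 : n % 2 = 0 ∧ h n ≠ 0 := by simpa [par] using hn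
    have h2 := hw.2.1 n h1.2
    exact ⟨n / 12, by omega⟩).1
  have h1 := (exC hS 1 (sm_par hw.1 1) fun n hn => by
    have h1 : n % 2 = 1 ∧ h n ≠ 0 := by simpa [par] using hn
    have h2 := hw.2.1 n h1.2
    exact ⟨n / 12, by omega⟩).1
  have T0 := (exZ hS s00 hZ.supW.1).1
  have T1 := (exZ hS s01 hZ.supW.2.1).1
  have H0 := (exZ hS s20 hZ.supW.2.2.1).1
  have H1 := (exZ hS s21 hZ.supW.2.2.2).1
  have eE := exZ hS sE hI.supE.1
  have eD := exZ hS sD hZ.supD.1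
  have d1 := hS.exMul _ _ _ _ eD.1 eE.1
  have d2 := hS.ldMul _ _ _ _ _ _ eD.2 eE.2
  have d3 : cz D2 1 * cz E8 4 ≠ 0 := by simp [cz, hZ.supD.2, hI.supE.2]
  have d4 : ∀ τ : ℂ, 0 < τ.im → sr D2 τ * sr E8 τ ≠ 0 := fun τ hτ =>
    mul_ne_zero (hZ.neD τ hτ) (hN.neE τ hτ)
  have e1 : ((4 : ℕ) : ℝ) / 12 + ((1 : ℕ) : ℝ) / 12 = ((1 : ℕ) : ℝ) / 12 + ((4 : ℕ) : ℝ) / 12 := by
    norm_num
  constructor
  · have a := hS.exMul _ _ _ _ h0 H1
    rw [e1] at a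
    exact hol_of_ex (hS.exDiv _ _ _ _ _ (hS.exAdd _ _ _ 1 (-1) a (hS.exMul _ _ _ _ h1 H0))
      d1 d2 d3 d4) (by norm_num)
  · have a := hS.exMul _ _ _ _ h0 T1
    rw [e1] at a
    exact hol_of_ex (hS.exDiv _ _ _ _ _ (hS.exAdd _ _ _ 1 (-1) (hS.exMul _ _ _ _ h1 T0) a)
      d1 d2 d3 d4) (by norm_num)

theorem lawP (hJ : RowJH) (hN : RowNZ) (hZ : RowZ) {j : ℕ} {h : ℕ → ℂ} (hw : WP j h) (τ : ℂ)
    (hτ : 0 < τ.im) : FP h (-1 / τ) = τ ^ (j : ℤ) * FP h τ ∧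
      GP h (-1 / τ) = τ ^ ((j : ℤ) - 2) * GP h τ := by
  have a0 := hw.2.2 τ hτ 0 (by norm_num)
  have a1 := hw.2.2 τ hτ 1 (by norm_num)
  rw [Nat.cast_one, one_mul] at a0 a1
  have t0 : τ ≠ 0 := by rintro rfl; simp at hτ
  have r2 : ((√2 : ℝ) : ℂ) ^ 2 = 2 := by
    rw [← Complex.ofReal_pow, Real.sq_sqrt (by norm_num)]; norm_num
  have r0 : ((√2 : ℝ) : ℂ) ≠ 0 := by
    intro h0; rw [h0] at r2; norm_num at r2
  have j0 := hJ.jne τ hτ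
  have j2 := hJ.sq τ
  have jj : -I ^ j * Jh τ ^ (2 * j + 3) = -(τ ^ j * Jh τ ^ 3) := by
    rw [neg_mul, pow_add, pow_mul, j2, ← mul_assoc, ← mul_pow]
    congr 3
    linear_combination (-τ) * I_mul_I
  have j4 : Jh τ ^ 4 = -τ ^ 2 := by
    rw [show Jh τ ^ 4 = (Jh τ ^ 2) ^ 2 by ring, j2]
    linear_combination τ ^ 2 * I_mul_I
  rw [jj] at a0 a1
  have nD := hZ.neD τ hτ
  have nE := hN.neE τ hτ
  unfold FP GP
  rw [a0, a1, hZ.lawW2 τ hτ 0 (by norm_num), hZ.lawW2 τ hτ 1 (by norm_num),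
    hZ.lawW0 τ hτ 0 (by norm_num), hZ.lawW0 τ hτ 1 (by norm_num), hZ.lawD τ hτ, hN.lawE τ hτ,
    zpow_sub₀ t0, zpow_natCast, zpow_ofNat]
  generalize ser 12 (par 0 h) τ = x0
  generalize ser 12 (par 1 h) τ = x1
  generalize sr (W2 0) τ = y0
  generalize sr (W2 1) τ = y1
  generalize sr (W0 0) τ = z0
  generalize sr (W0 1) τ = z1
  generalize sr D2 τ = d at *
  generalize sr E8 τ = e at *
  generalize Jh τ = J at *
  generalize ((√2 : ℝ) : ℂ) = r at *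
  generalize τ ^ j = p
  constructor
  · field_simp
    rw [r2, show J ^ 8 = (J ^ 4) ^ 2 by ring, j4]
    ring
  · field_simp
    rw [r2, j4]
    ring

end Wdp

open Wdp in
theorem rowWDIMP : OfWDIMP := by
  intro hS hJ hI hB hN hZ j ι _ h hj hw hli
  choose f hf using fun i => hS.lev j _ (holP hS hI hB hN hZ (hw i)).1
    fun τ hτ => (lawP hJ hN hZ (hw i) τ hτ).1
  choose g hg using fun i => hS.lev (j - 2) _ (holP hS hI hB hN hZ (hw i)).2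
    fun τ hτ => (lawP hJ hN hZ (hw i) τ hτ).2
  refine le_trans (LinearIndependent.fintype_card_le_finrank (b := fun i => (f i, g i)) ?_) (dim j hj)
  rw [Fintype.linearIndependent_iff] at hli ⊢
  intro x hx
  apply hli x
  have h1 : ∑ i, x i • f i = 0 := by simpa [Prod.fst_sum] using congrArg Prod.fst hx
  have h2 : ∑ i, x i • g i = 0 := by simpa [Prod.snd_sum] using congrArg Prod.snd hx
  apply hS.uniq 12 _ 0 (by norm_num)
  intro τ hτ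
  have ev : ∀ (k : ℤ) (u : ι → ModularForm 𝒮ℒ k) (z : ℍ), (∑ i, x i • u i) z = ∑ i, x i * u i z := by
    intro k u z
    induction (Finset.univ : Finset ι) using Finset.cons_induction with
    | empty => simp
    | cons a s ha ih => simp [Finset.sum_cons, ih]
  have h3 := ev _ f ⟨τ, hτ⟩
  have h4 := ev _ g ⟨τ, hτ⟩
  rw [h1] at h3
  rw [h2] at h4
  simp only [hf, hg, zero_apply] at h3 h4
  have h5 : ∀ i, ser 12 (par 0 (h i)) τ + ser 12 (par 1 (h i)) τ =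
      -(1 / 12) * (FP (h i) τ * (sr (W0 0) τ + sr (W0 1) τ) +
        GP (h i) τ * (sr (W2 0) τ + sr (W2 1) τ)) := fun i => by
    have nD := hZ.neD τ hτ
    have nE := hN.neE τ hτ
    have hd := (sm_W hS hB hZ).2.2.2.2.2.2 τ hτ
    unfold FP GP
    field_simp
    linear_combination (ser 12 (par 0 (h i)) τ + ser 12 (par 1 (h i)) τ) * hd
  have h6 := hasSum_sum (s := Finset.univ) fun i _ => (ser_sum hS (hw i).1 τ hτ).mul_left (x i)
  have h7 : ∑ i, x i * (ser 12 (par 0 (h i)) τ + ser 12 (par 1 (h i)) τ) = 0 := by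
    have : ∀ i, x i * (ser 12 (par 0 (h i)) τ + ser 12 (par 1 (h i)) τ) =
        -(1 / 12) * (sr (W0 0) τ + sr (W0 1) τ) * (x i * FP (h i) τ) +
          -(1 / 12) * (sr (W2 0) τ + sr (W2 1) τ) * (x i * GP (h i) τ) := fun i => by
      rw [h5]; ring
    simp only [this, Finset.sum_add_distrib, ← Finset.mul_sum, ← h3, ← h4]
    simp
  rw [h7] at h6
  simpa only [Finset.sum_apply, Pi.smul_apply, smul_eq_mul, Finset.sum_mul, mul_assoc] using h6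

end Pool.Agent.MP_5f72fe_nt.H55
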